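import Pool.Agent.Q266.RP.Stm3

set_option autoImplicit false

/-!
JOB CYCP of project RP (helper266).
-/

namespace Pool.Agent.Q139.RPB

open Pool.Agent.Q266.RP

theorem mem_zpowers_of {p : ℕ} [Fact p.Prime] {G : Type} [Group G] [Finite G]
    (hC : CenSmall p G) {z : G} (hz : z ∈ Subgroup.center G) (hp : orderOf z = p) {t : G}
    (ht : t ∈ Subgroup.center G) (htp : t ^ p = 1) : t ∈ Subgroup.zpowers z := by
  classical
  have key : ∀ y : Subgroup.zpowers z, (y : G) ∈ Subgroup.center G ∧ (y : G) ^ p = 1 := by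
    rintro ⟨y, k, rfl⟩
    refine ⟨Subgroup.zpow_mem _ hz k, ?_⟩
    show (z ^ k) ^ p = 1
    rw [← zpow_natCast, ← zpow_mul, mul_comm, zpow_mul, zpow_natCast, ← hp, pow_orderOf_eq_one,
      one_zpow]
  let f : Subgroup.zpowers z → {t : G // t ∈ Subgroup.center G ∧ t ^ p = 1} :=
    fun y => ⟨y, key y⟩
  have hinj : Function.Injective f := by
    intro x y hxy
    have := congrArg Subtype.val hxy
    exact Subtype.ext this
  have hcard : Nat.card (Subgroup.zpowers z) = p := by rw [Nat.card_zpowers, hp]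
  have hle : Nat.card (Subgroup.zpowers z) ≤
      Nat.card {t : G // t ∈ Subgroup.center G ∧ t ^ p = 1} :=
    Nat.card_le_card_of_injective f hinj
  have hC' : Nat.card {t : G // t ∈ Subgroup.center G ∧ t ^ p = 1} ≤ p := hC
  have hbij : Function.Bijective f :=
    (Nat.bijective_iff_injective_and_card f).2 ⟨hinj, by omega⟩
  obtain ⟨y, hy⟩ := hbij.2 ⟨t, ht, htp⟩
  have : (y : G) = t := congrArg Subtype.val hy
  rw [← this]
  exact y.2

theorem lte {p : ℕ} (hp : p.Prime) (hp2 : p ≠ 2) {N : ℕ} (hN : N ≠ 0) {r : ℤ}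
    (h : (p : ℤ) ^ N ∣ r ^ p - 1) : (p : ℤ) ∣ r - 1 ∧ (p : ℤ) ^ N ∣ p * (r - 1) := by
  have := Fact.mk hp
  have h1 : (p : ℤ) ∣ r ^ p - 1 := (dvd_pow_self _ hN).trans h
  have h2 : (p : ℤ) ∣ r - 1 := by
    rw [← ZMod.intCast_zmod_eq_zero_iff_dvd] at h1 ⊢
    push_cast at h1 ⊢
    rwa [ZMod.pow_card] at h1
  have hpi : Prime (p : ℤ) := Nat.prime_iff_prime_int.1 hp
  have h3 : ¬ (p : ℤ) ∣ r := by
    intro h4
    have : (p : ℤ) ∣ 1 := by
      have := dvd_sub h4 h2
      simpa using this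
    exact hpi.not_isUnit (isUnit_of_dvd_one this)
  have h5 := Int.emultiplicity_pow_sub_pow hp (hp.odd_of_ne_two hp2) (x := r) (y := 1) h2 h3 p
  rw [one_pow] at h5
  have h6 : emultiplicity p p = 1 := by
    have := hp.emultiplicity_self
    exact this
  have h7 : emultiplicity (p : ℤ) (p : ℤ) = 1 := by
    rw [Int.natCast_emultiplicity]
    exact h6
  refine ⟨h2, pow_dvd_of_le_emultiplicity ?_⟩
  rw [emultiplicity_mul hpi, h7, add_comm, ← h6, ← h5]
  exact le_emultiplicity_of_pow_dvd h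

theorem cycp : S_CYCP := by
  intro p _ hp2 G _ _ hG hC z hz hzp D hDn hDc hcard
  have hp : p.Prime := Fact.out
  obtain ⟨⟨a, haD⟩, ha⟩ := hDc.exists_generator
  have hgen : ∀ d ∈ D, ∃ k : ℤ, a ^ k = d := by
    intro d hd
    obtain ⟨k, hk⟩ := ha ⟨d, hd⟩
    refine ⟨k, ?_⟩
    have := congrArg Subtype.val hk
    simpa using this
  obtain ⟨N, hN⟩ := (IsPGroup.iff_card).1 (hG.to_subgroup D)
  have hDeq : D = Subgroup.zpowers a := by
    ext x
    constructor
    · intro hx
      obtain ⟨k, hk⟩ := hgen x hx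
      exact ⟨k, hk⟩
    · rintro ⟨k, rfl⟩
      exact D.zpow_mem haD k
  have hoa : orderOf a = p ^ N := by
    rw [← hN, hDeq, Nat.card_zpowers]
  have hDpos : 0 < Nat.card D := Nat.card_pos
  have hq : Nat.card (G ⧸ D) = p := by
    have h1 := Subgroup.card_eq_card_quotient_mul_card_subgroup D
    rw [hcard] at h1
    exact (Nat.eq_of_mul_eq_mul_right hDpos h1).symm
  have hconj : ∀ g : G, ∃ r : ℤ, ∀ d ∈ D, g * d * g⁻¹ = d ^ r := by
    intro g
    obtain ⟨r, hr⟩ := hgen (g * a * g⁻¹) (hDn.conj_mem a haD g)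
    refine ⟨r, ?_⟩
    intro d hd
    obtain ⟨k, rfl⟩ := hgen d hd
    rw [← conj_zpow, ← hr, ← zpow_mul, ← zpow_mul, mul_comm]
  have hcomm : ∀ x ∈ D, ∀ y ∈ D, x * y = y * x := by
    intro x hx y hy
    obtain ⟨k, rfl⟩ := hgen x hx
    obtain ⟨l, rfl⟩ := hgen y hy
    rw [← zpow_add, ← zpow_add, add_comm]
  have hpow : ∀ g : G, g ^ p ∈ D := by
    intro g
    rw [← QuotientGroup.eq_one_iff, QuotientGroup.mk_pow, ← hq]
    exact pow_card_eq_one'
  have hgood : ∀ g : G, ∀ d ∈ D, (d ^ p = 1 → g * d * g⁻¹ = d) ∧ (g * d * g⁻¹ * d⁻¹) ^ p = 1 := by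
    intro g d hd
    obtain ⟨r, hr⟩ := hconj g
    have hit : ∀ i : ℕ, ∀ x ∈ D, g ^ i * x * (g ^ i)⁻¹ = x ^ (r ^ i) := by
      intro i
      induction i with
      | zero => intro x _; simp
      | succ i ih =>
        intro x hx
        have h1 : g ^ (i + 1) * x * (g ^ (i + 1))⁻¹ = g * (g ^ i * x * (g ^ i)⁻¹) * g⁻¹ := by
          rw [pow_succ']; group
        rw [h1, ih x hx, hr _ (D.zpow_mem hx _), ← zpow_mul, pow_succ]
    have h2 : a ^ (r ^ p - 1) = 1 := by
      have h3 := hit p a haD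
      have h4 := hcomm (g ^ p) (hpow g) a haD
      rw [h4, mul_inv_cancel_right] at h3
      rw [zpow_sub, zpow_one, ← h3, mul_inv_cancel]
    have h5 : ((p : ℤ)) ^ N ∣ r ^ p - 1 := by
      have := (orderOf_dvd_iff_zpow_eq_one).2 h2
      rw [hoa] at this
      exact_mod_cast this
    by_cases hN0 : N = 0
    · have h6 : a = 1 := by
        rw [← orderOf_eq_one_iff, hoa, hN0, pow_zero]
      obtain ⟨k, rfl⟩ := hgen d hd
      rw [h6]
      simp
    · obtain ⟨h6, h7⟩ := lte hp hp2 hN0 h5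
      constructor
      · intro hd1
        rw [hr d hd]
        obtain ⟨m, hm⟩ := h6
        have h8 : r = p * m + 1 := by linarith
        rw [h8, zpow_add, zpow_one, zpow_mul, zpow_natCast, hd1, one_zpow, one_mul]
      · rw [hr d hd]
        obtain ⟨k, rfl⟩ := hgen d hd
        have h8 : a ^ ((p : ℤ) * (r - 1)) = 1 := by
          apply (orderOf_dvd_iff_zpow_eq_one).1
          rw [hoa]
          exact_mod_cast h7
        have h9 : (a ^ k) ^ r * (a ^ k)⁻¹ = a ^ (k * (r - 1)) := by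
          rw [← zpow_mul, ← zpow_neg, ← zpow_add]
          congr 1
          ring
        rw [h9, ← zpow_natCast, ← zpow_mul]
        have h10 : k * (r - 1) * (p : ℤ) = (p * (r - 1)) * k := by ring
        rw [h10, zpow_mul, h8, one_zpow]
  have hkey : ∀ g : G, ∀ d ∈ D, g * d * g⁻¹ * d⁻¹ ∈ Subgroup.zpowers z := by
    intro g d hd
    have hm : g * d * g⁻¹ * d⁻¹ ∈ D := D.mul_mem (hDn.conj_mem d hd g) (D.inv_mem hd)
    have ht : (g * d * g⁻¹ * d⁻¹) ^ p = 1 := (hgood g d hd).2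
    refine mem_zpowers_of hC hz hzp ?_ ht
    rw [Subgroup.mem_center_iff]
    intro g'
    have := (hgood g' _ hm).1 ht
    rw [mul_inv_eq_iff_eq_mul] at this
    exact this
  have hZn : (Subgroup.zpowers z).Normal := by
    refine ⟨fun n hn g => ?_⟩
    have hle : Subgroup.zpowers z ≤ Subgroup.center G := by
      rw [Subgroup.zpowers_le]
      exact hz
    have h1 : g * n = n * g := (Subgroup.mem_center_iff.1 (hle hn)) g
    rw [h1, mul_inv_cancel_right]
    exact hn
  intro g h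
  have hcyc : IsCyclic (G ⧸ D) := isCyclic_of_prime_card hq
  let π : G →* G ⧸ Subgroup.zpowers z := QuotientGroup.mk' (Subgroup.zpowers z)
  have hπ : Function.Surjective π := QuotientGroup.mk'_surjective _
  have hD'n : (D.map π).Normal := hDn.map π hπ
  let F : (G ⧸ D) →* ((G ⧸ Subgroup.zpowers z) ⧸ D.map π) :=
    QuotientGroup.map D (D.map π) π (Subgroup.le_comap_map π D)
  have hF : Function.Surjective F := by
    intro y
    obtain ⟨y, rfl⟩ := QuotientGroup.mk_surjective y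
    obtain ⟨x, rfl⟩ := hπ y
    exact ⟨QuotientGroup.mk x, rfl⟩
  have hcyc' : IsCyclic ((G ⧸ Subgroup.zpowers z) ⧸ D.map π) := isCyclic_of_surjective F hF
  have hker : (QuotientGroup.mk' (D.map π)).ker ≤ Subgroup.center (G ⧸ Subgroup.zpowers z) := by
    rw [QuotientGroup.ker_mk']
    rintro _ ⟨d, hd, rfl⟩
    rw [Subgroup.mem_center_iff]
    intro y
    obtain ⟨x, rfl⟩ := hπ y
    rw [← map_mul, ← map_mul]
    show (QuotientGroup.mk (x * d) : G ⧸ Subgroup.zpowers z) = QuotientGroup.mk (d * x)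
    rw [QuotientGroup.eq_iff_div_mem, div_eq_mul_inv, mul_inv_rev, ← mul_assoc]
    exact hkey x d hd
  have hfin := commutative_of_cyclic_center_quotient (QuotientGroup.mk' (D.map π)) hker
    (π g) (π h)
  rw [← map_mul, ← map_mul] at hfin
  have : (QuotientGroup.mk (g * h) : G ⧸ Subgroup.zpowers z) = QuotientGroup.mk (h * g) := hfin
  rw [QuotientGroup.eq_iff_div_mem, div_eq_mul_inv, mul_inv_rev, ← mul_assoc] at this
  exact this

end Pool.Agent.Q139.RPB
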